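import Pool.Agent.MT100G.Stmts

/-! PER: a chain of discs can avoid finitely many more points. -/

set_option autoImplicit false

namespace Pool.Agent.MT100G.H11

open Matrix Polynomial Pool.Agent.MT100 Pool.Agent.Helper78_MT Pool.Agent.MT100G

variable {d : Type} [Fintype d] [DecidableEq d]

theorem solOn_mono {q : ℤ[X]} {B : Matrix d d ℤ[X]} {c c' : ℂ} {ρ ρ' : ℝ} {Y : ℂ → Matrix d d ℂ}
    (h : SolOn q B c ρ Y) (h0 : 0 < ρ') (hs : Metric.ball c' ρ' ⊆ Metric.ball c ρ) :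
    SolOn q B c' ρ' Y :=
  ⟨h0, fun w hw => h.reg w (hs hw), fun w hw => h.det w (hs hw), fun w hw => h.ode w (hs hw)⟩

/-- two overlapping small discs with the same function -/
theorem stp_same {q : ℤ[X]} {B : Matrix d d ℤ[X]} {c : ℂ} {ρ : ℝ} {Y : ℂ → Matrix d d ℂ}
    (h : SolOn q B c ρ Y) {V : Set ℂ} {a b : ℂ} {ε ε' : ℝ} (he : 0 < ε) (he' : 0 < ε')
    (ha : Metric.ball a ε ⊆ Metric.ball c ρ ∩ V) (hb : Metric.ball b ε' ⊆ Metric.ball c ρ ∩ V)
    (hab : (Metric.ball a ε ∩ Metric.ball b ε').Nonempty) :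
    Stp q B V (a, ε, Y) (b, ε', Y) :=
  ⟨solOn_mono h he fun _ hw => (ha hw).1, solOn_mono h he' fun _ hw => (hb hw).1,
    fun _ hw => (ha hw).2, fun _ hw => (hb hw).2, hab, fun _ _ => rfl⟩

theorem stp_symm {q : ℤ[X]} {B : Matrix d d ℤ[X]} {V : Set ℂ}
    {x y : ℂ × ℝ × (ℂ → Matrix d d ℂ)} (h : Stp q B V x y) : Stp q B V y x := by
  obtain ⟨h1, h2, h3, h4, h5, h6⟩ := h
  exact ⟨h2, h1, h4, h3, by rwa [Set.inter_comm] at h5, fun w hw => (h6 w ⟨hw.2, hw.1⟩).symm⟩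

theorem cnt_symm {q : ℤ[X]} {B : Matrix d d ℤ[X]} {V : Set ℂ}
    {x y : ℂ × ℝ × (ℂ → Matrix d d ℂ)} (h : Cnt q B V x y) : Cnt q B V y x := by
  induction h with
  | refl => exact Relation.ReflTransGen.refl
  | tail _ h2 ih => exact Relation.ReflTransGen.head (stp_symm h2) ih

/-- a disc minus a finite set is connected -/
theorem precon (c : ℂ) {ρ : ℝ} (hρ : 0 < ρ) {Z : Set ℂ} (hZ : Z.Finite) :
    IsPreconnected (Metric.ball c ρ \ Z) := by
  set e := OpenPartialHomeomorph.univBall c ρ with he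
  have hinj : Function.Injective e := by
    have h1 := e.injOn
    rw [he, OpenPartialHomeomorph.univBall_source, ← he] at h1
    exact fun x y hxy => h1 (Set.mem_univ x) (Set.mem_univ y) hxy
  have hfin : (e ⁻¹' Z).Finite := hZ.preimage hinj.injOn
  have h2 : IsConnected (e ⁻¹' Z)ᶜ :=
    hfin.countable.isConnected_compl_of_one_lt_rank (by simp)
  have h3 := h2.isPreconnected.image e
    (OpenPartialHomeomorph.continuous_univBall c ρ).continuousOn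
  have h4 : e '' (e ⁻¹' Z)ᶜ = Metric.ball c ρ \ Z := by
    have h5 : e.source = Set.univ := OpenPartialHomeomorph.univBall_source c ρ
    have h6 : e.target = Metric.ball c ρ := OpenPartialHomeomorph.univBall_target c hρ
    ext w
    constructor
    · rintro ⟨v, hv, rfl⟩
      refine ⟨?_, hv⟩
      rw [← h6]
      exact e.map_source (by rw [h5]; trivial)
    · rintro ⟨hw, hw'⟩
      rw [← h6] at hw
      refine ⟨e.symm w, ?_, e.right_inv hw⟩
      show ¬ (e (e.symm w) ∈ Z)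
      rwa [e.right_inv hw]
  rwa [h4] at h3

/-- points of a punctured disc are connected by chains of small discs -/
theorem disc {q : ℤ[X]} {B : Matrix d d ℤ[X]} {c : ℂ} {ρ : ℝ} {Y : ℂ → Matrix d d ℂ}
    (h : SolOn q B c ρ Y) {U : Set ℂ} (hU : Metric.ball c ρ ⊆ U) {Z : Set ℂ}
    (hZ : Z.Finite) {a b : ℂ} (ha : a ∈ Metric.ball c ρ \ Z) (hb : b ∈ Metric.ball c ρ \ Z) :
    ∃ ε0 : ℝ, 0 < ε0 ∧ ∀ ε ε' : ℝ, 0 < ε → ε ≤ ε0 → 0 < ε' → ε' ≤ ε0 →
      Cnt q B (U \ Z) (a, ε, Y) (b, ε', Y) := by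
  have hV : IsOpen (Metric.ball c ρ \ Z) := Metric.isOpen_ball.sdiff hZ.isClosed
  have hsub : ∀ (p : ℂ) (δ : ℝ), Metric.ball p δ ⊆ Metric.ball c ρ \ Z →
      Metric.ball p δ ⊆ Metric.ball c ρ ∩ (U \ Z) := fun p δ hp w hw =>
    ⟨(hp hw).1, hU (hp hw).1, (hp hw).2⟩
  refine (precon c h.pos hZ).induction₂ (fun a b => ∃ ε0 : ℝ, 0 < ε0 ∧ ∀ ε ε' : ℝ, 0 < ε →
    ε ≤ ε0 → 0 < ε' → ε' ≤ ε0 → Cnt q B (U \ Z) (a, ε, Y) (b, ε', Y)) ?_ ?_ ?_ ha hb
  · intro x hx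
    obtain ⟨δ, hδ, hball⟩ := Metric.isOpen_iff.1 hV x hx
    have h1 : ∀ᶠ y in nhds x, y ∈ Metric.ball x δ := Metric.ball_mem_nhds x hδ
    filter_upwards [nhdsWithin_le_nhds h1] with y hy
    obtain ⟨δ', hδ', hball'⟩ := Metric.isOpen_iff.1 Metric.isOpen_ball y hy
    refine ⟨min δ δ', lt_min hδ hδ', fun ε ε' he hle he' hle' => ?_⟩
    have h2 : Stp q B (U \ Z) (x, ε, Y) (x, δ, Y) := by
      refine stp_same h he hδ (hsub x ε ?_) (hsub x δ hball) ⟨x, ?_, ?_⟩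
      · exact (Metric.ball_subset_ball (hle.trans (min_le_left _ _))).trans hball
      · exact Metric.mem_ball_self he
      · exact Metric.mem_ball_self hδ
    have h3 : Stp q B (U \ Z) (x, δ, Y) (y, ε', Y) := by
      refine stp_same h hδ he' (hsub x δ hball) (hsub y ε' ?_) ⟨y, hy, Metric.mem_ball_self he'⟩
      exact ((Metric.ball_subset_ball (hle'.trans (min_le_right _ _))).trans hball').trans hball
    exact (Relation.ReflTransGen.single h2).tail h3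
  · rintro x y z - - - ⟨ε1, h1, h1'⟩ ⟨ε2, h2, h2'⟩
    refine ⟨min ε1 ε2, lt_min h1 h2, fun ε ε' he hle he' hle' => ?_⟩
    exact (h1' ε (min ε1 ε2) he (hle.trans (min_le_left _ _)) (lt_min h1 h2)
      (min_le_left _ _)).trans (h2' (min ε1 ε2) ε' (lt_min h1 h2) (min_le_right _ _) he'
      (hle'.trans (min_le_right _ _)))
  · rintro x y - - ⟨ε1, h1, h1'⟩
    exact ⟨ε1, h1, fun ε ε' he hle he' hle' => cnt_symm (h1' ε' ε he' hle' he hle)⟩

theorem per : PerStmt := by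
  intro d _ _ q B U hU x y hxy hx hxU Z hZ a ha haZ
  have hmain : (SolOn q B y.1 y.2.1 y.2.2 ∧ Metric.ball y.1 y.2.1 ⊆ U) ∧
      ∀ b ∈ Metric.ball y.1 y.2.1, b ∉ Z →
      ∃ ε0 : ℝ, 0 < ε0 ∧ ∀ ε ε' : ℝ, 0 < ε → ε ≤ ε0 → 0 < ε' → ε' ≤ ε0 →
        Cnt q B (U \ Z) (a, ε, x.2.2) (b, ε', y.2.2) := by
    induction hxy with
    | refl => exact ⟨⟨hx, hxU⟩, fun b hb hbZ => disc hx hxU hZ ⟨ha, haZ⟩ ⟨hb, hbZ⟩⟩
    | @tail y z _ hyz ih =>
      obtain ⟨_, ih2⟩ := ih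
      obtain ⟨h1, h2, h3, h4, ⟨p0, hp0⟩, h6⟩ := hyz
      refine ⟨⟨h2, h4⟩, fun b hb hbZ => ?_⟩
      have hI : IsOpen (Metric.ball y.1 y.2.1 ∩ Metric.ball z.1 z.2.1) :=
        Metric.isOpen_ball.inter Metric.isOpen_ball
      have hinf : (Metric.ball y.1 y.2.1 ∩ Metric.ball z.1 z.2.1).Infinite :=
        infinite_of_mem_nhds p0 (hI.mem_nhds hp0)
      obtain ⟨p, hp, hpZ⟩ := (hinf.diff hZ).nonempty
      obtain ⟨δ, hδ, hball⟩ := Metric.isOpen_iff.1 (hI.sdiff hZ.isClosed) p ⟨hp, hpZ⟩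
      obtain ⟨e1, he1, H1⟩ := ih2 p hp.1 hpZ
      obtain ⟨e2, he2, H2⟩ := disc h2 h4 hZ ⟨hp.2, hpZ⟩ ⟨hb, hbZ⟩
      set m := min (min e1 e2) δ with hm
      have hm0 : 0 < m := lt_min (lt_min he1 he2) hδ
      have hm1 : m ≤ e1 := (min_le_left _ _).trans (min_le_left _ _)
      have hm2 : m ≤ e2 := (min_le_left _ _).trans (min_le_right _ _)
      have hm3 : m ≤ δ := min_le_right _ _
      refine ⟨m, hm0, fun ε ε' he hle he' hle' => ?_⟩
      have hb' : Metric.ball p m ⊆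
          (Metric.ball y.1 y.2.1 ∩ Metric.ball z.1 z.2.1) \ Z :=
        (Metric.ball_subset_ball hm3).trans hball
      have hs : Stp q B (U \ Z) (p, m, y.2.2) (p, m, z.2.2) :=
        ⟨solOn_mono h1 hm0 fun w hw => (hb' hw).1.1, solOn_mono h2 hm0 fun w hw => (hb' hw).1.2,
          fun w hw => ⟨h3 (hb' hw).1.1, (hb' hw).2⟩, fun w hw => ⟨h3 (hb' hw).1.1, (hb' hw).2⟩,
          ⟨p, Metric.mem_ball_self hm0, Metric.mem_ball_self hm0⟩,
          fun w hw => h6 w (hb' hw.1).1⟩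
      exact ((H1 ε m he (hle.trans hm1) hm0 hm1).tail hs).trans
        (H2 m ε' hm0 hm2 he' (hle'.trans hm2))
  exact hmain.2

end Pool.Agent.MT100G.H11
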