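import Pool.Agent.Helper43_MT100G.Bas
import Pool.Agent.Helper11_MTG.Per
import Pool.Agent.Helper63_MT100G.Tu1
import Pool.Agent.Helper87_MT100G.Prm
import Pool.Agent.Helper47_MT100G.Fps
import Pool.Agent.Helper19_MT100G.Hpl
import Pool.Agent.MT100GO.Stmts

/-! MON: the monodromy matrices form a group which preserves the pairing (generic form, and the
two cases of alternating and symmetric pairings). -/

set_option autoImplicit false

namespace Pool.Agent.MT100G.H11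

open Matrix Polynomial Pool.Agent.MT100 Pool.Agent.Helper78_MT Pool.Agent.MT100G

variable {d : Type} [Fintype d] [DecidableEq d]

/-- value of a rational polynomial -/
noncomputable def qC (p : ℚ[X]) (x : ℂ) : ℂ := (p.map (algebraMap ℚ ℂ)).eval x

/-- the relation of the pairing at `w` -/
def Rl (J : Matrix d d ℚ[X]) (s : ℚ[X]) (J0 : Matrix d d ℚ) (Y : ℂ → Matrix d d ℂ) (w : ℂ) : Prop :=
  (Y w)ᵀ * J.map (fun p => qC p w⁻¹) * Y w = qC s w⁻¹ • J0.map (algebraMap ℚ ℂ)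

theorem ac_C (r : ℚ) (x : ℂ) : H43.AC (PowerSeries.C r) x ∧ evC (PowerSeries.C r) x = (r : ℂ) := by
  have h : (PowerSeries.C r : PowerSeries ℚ) = ((C r : ℚ[X]) : PowerSeries ℚ) := by
    rw [Polynomial.coe_C]
  rw [h]
  refine ⟨(H43.ac_poly _ x).1, ?_⟩
  rw [(H43.ac_poly _ x).2, Polynomial.map_C, Polynomial.eval_C]
  rfl

/-- the relation near infinity -/
theorem rl_base {H K : Matrix d d (PowerSeries ℚ)} {N : Matrix d d ℤ} {q : ℤ[X]}
    {B : Matrix d d ℤ[X]} {J : Matrix d d ℚ[X]} {s : ℚ[X]} {J0 : Matrix d d ℚ}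
    (hS : GSys H K N q B)
    (hpair : Hᵀ * J.map (fun p => (p : PowerSeries ℚ)) * H =
      (s : PowerSeries ℚ) • J0.map (fun x => PowerSeries.C x))
    (hflat : (N.map (fun x => (x : ℚ)))ᵀ * J0 + J0 * N.map (fun x => (x : ℚ)) = 0) :
    ∃ R : ℝ, ∀ w : ℂ, R < w.re → Rl J s J0 (YH H N) w := by
  have hH := fun i j => H43.gtype_near (hS.gH i j)
  choose δH hδH hHx using hH
  obtain ⟨δ, hδ, hδl⟩ : ∃ δ : ℝ, 0 < δ ∧ ∀ i j, δ ≤ δH i j := by
    have h1 : ∀ s : Finset (d × d), ∃ δ : ℝ, 0 < δ ∧ ∀ p ∈ s, δ ≤ δH p.1 p.2 := by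
      intro s
      classical
      induction s using Finset.induction_on with
      | empty => exact ⟨1, one_pos, fun p hp => absurd hp (Finset.notMem_empty p)⟩
      | insert a s ha ih =>
        obtain ⟨δ, h1, h3⟩ := ih
        refine ⟨min δ (δH a.1 a.2), lt_min h1 (hδH _ _), fun p hp => ?_⟩
        rcases Finset.mem_insert.mp hp with rfl | hp
        · exact min_le_right _ _
        · exact (min_le_left _ _).trans (h3 p hp)
    obtain ⟨δ, h1, h3⟩ := h1 Finset.univ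
    exact ⟨δ, h1, fun i j => h3 (i, j) (Finset.mem_univ _)⟩
  refine ⟨1 / δ, fun w hw => ?_⟩
  have h0 : 0 < w.re := lt_trans (by positivity) hw
  have hw0 : w ≠ 0 := by
    intro h
    rw [h] at h0
    simp at h0
  have hn : 1 / δ < ‖w‖ := lt_of_lt_of_le hw (Complex.re_le_norm w)
  have hwi : ‖w⁻¹‖ < δ := by
    rw [norm_inv, inv_lt_comm₀ (norm_pos_iff.mpr hw0) hδ, ← one_div]
    exact hn
  have hA : ∀ i j, H43.AC (H i j) w⁻¹ := fun i j =>
    (hHx i j w⁻¹ (lt_of_lt_of_le hwi (hδl i j))).1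
  have hAT : ∀ i j, H43.AC (Hᵀ i j) w⁻¹ := fun i j => hA j i
  have hJ : ∀ i j, H43.AC ((J.map (fun p => (p : PowerSeries ℚ))) i j) w⁻¹ := fun i j =>
    (H43.ac_poly (J i j) w⁻¹).1
  obtain ⟨m1, m2⟩ := H43.ac_mmul hAT hJ
  obtain ⟨m3, m4⟩ := H43.ac_mmul m1 hA
  have hval : (H.map (fun f => evC f w⁻¹))ᵀ * J.map (fun p => qC p w⁻¹) *
      H.map (fun f => evC f w⁻¹) = qC s w⁻¹ • J0.map (algebraMap ℚ ℂ) := by
    have e1 : (J.map (fun p => (p : PowerSeries ℚ))).map (fun f => evC f w⁻¹) =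
        J.map (fun p => qC p w⁻¹) := by
      ext i j
      rw [Matrix.map_apply, Matrix.map_apply, Matrix.map_apply]
      exact (H43.ac_poly (J i j) w⁻¹).2
    have e2 : Hᵀ.map (fun f => evC f w⁻¹) = (H.map (fun f => evC f w⁻¹))ᵀ := rfl
    rw [← e2, ← e1, ← m2, ← m4, hpair]
    ext i j
    rw [Matrix.map_apply, Matrix.smul_apply, Matrix.smul_apply, Matrix.map_apply, Matrix.map_apply,
      smul_eq_mul, smul_eq_mul, (H43.ac_mul (H43.ac_poly s w⁻¹).1 (ac_C (J0 i j) w⁻¹).1).2,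
      (H43.ac_poly s w⁻¹).2, (ac_C (J0 i j) w⁻¹).2]
    rfl
  have haut : (eN N (-Complex.log w))ᵀ * J0.map (algebraMap ℚ ℂ) * eN N (-Complex.log w) =
      J0.map (algebraMap ℚ ℂ) := H47.eN_aut hS.nil hflat _
  show (H.map (fun f => evC f w⁻¹) * eN N (-Complex.log w))ᵀ * _ *
    (H.map (fun f => evC f w⁻¹) * eN N (-Complex.log w)) = _
  calc (H.map (fun f => evC f w⁻¹) * eN N (-Complex.log w))ᵀ * J.map (fun p => qC p w⁻¹) *
        (H.map (fun f => evC f w⁻¹) * eN N (-Complex.log w)) =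
        (eN N (-Complex.log w))ᵀ * ((H.map (fun f => evC f w⁻¹))ᵀ * J.map (fun p => qC p w⁻¹) *
          H.map (fun f => evC f w⁻¹)) * eN N (-Complex.log w) := by
        rw [Matrix.transpose_mul]
        simp only [Matrix.mul_assoc]
    _ = qC s w⁻¹ • J0.map (algebraMap ℚ ℂ) := by
        rw [hval, Matrix.mul_smul, Matrix.smul_mul, haut]

theorem qC_diff (p : ℚ[X]) {U : Set ℂ} (hU : ∀ w ∈ U, w ≠ 0) :
    DifferentiableOn ℂ (fun w => qC p w⁻¹) U := by
  unfold qC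
  exact (Polynomial.differentiable _).comp_differentiableOn
    (differentiableOn_id.inv fun w hw => hU w hw)

/-- the relation persists on discs -/
theorem rl_disc {q : ℤ[X]} {B : Matrix d d ℤ[X]} {J : Matrix d d ℚ[X]} {s : ℚ[X]}
    {J0 : Matrix d d ℚ} {c : ℂ} {ρ : ℝ} {Y : ℂ → Matrix d d ℂ} (h : SolOn q B c ρ Y) {V : Set ℂ}
    (hV : IsOpen V) (hVn : V.Nonempty) (hVU : V ⊆ Metric.ball c ρ)
    (hr : ∀ w ∈ V, Rl J s J0 Y w) : ∀ w ∈ Metric.ball c ρ, Rl J s J0 Y w := by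
  have h0 : ∀ w ∈ Metric.ball c ρ, w ≠ 0 := fun w hw => (h.reg w hw).1
  have key : ∀ i j : d, ∀ w ∈ Metric.ball c ρ,
      ((Y w)ᵀ * J.map (fun p => qC p w⁻¹) * Y w) i j -
        (qC s w⁻¹ • J0.map (algebraMap ℚ ℂ)) i j = 0 := by
    intro i j
    refine H87.eqOn_zero_of_open Metric.isOpen_ball (convex_ball _ _).isPreconnected ?_ hV hVn hVU
      (fun w hw => ?_)
    · refine DifferentiableOn.sub ?_ ?_
      · have e : (fun w => ((Y w)ᵀ * J.map (fun p => qC p w⁻¹) * Y w) i j) =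
            fun w => ∑ l, (∑ k, Y w k i * qC (J k l) w⁻¹) * Y w l j := by
          funext w
          rw [Matrix.mul_apply]
          refine Finset.sum_congr rfl fun l _ => ?_
          rw [Matrix.mul_apply]
          rfl
        rw [e]
        refine DifferentiableOn.fun_sum fun l _ => DifferentiableOn.mul ?_
          (H87.solOn_differentiableOn h l j)
        exact DifferentiableOn.fun_sum fun k _ =>
          (H87.solOn_differentiableOn h k i).mul (qC_diff _ h0)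
      · have e : (fun w => (qC s w⁻¹ • J0.map (algebraMap ℚ ℂ)) i j) =
            fun w => qC s w⁻¹ * (J0 i j : ℂ) := by
          funext w
          rw [Matrix.smul_apply]
          rfl
        rw [e]
        exact (qC_diff s h0).mul_const _
    · have := congrFun (congrFun (hr w hw) i) j
      rw [this, sub_self]
  intro w hw
  ext i j
  exact sub_eq_zero.1 (key i j w hw)

/-- the relation persists along chains -/
theorem rl_cnt {q : ℤ[X]} {B : Matrix d d ℤ[X]} {J : Matrix d d ℚ[X]} {s : ℚ[X]}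
    {J0 : Matrix d d ℚ} {x y : ℂ × ℝ × (ℂ → Matrix d d ℂ)} (h : Cnt q B Set.univ x y)
    (hx : ∀ w ∈ Metric.ball x.1 x.2.1, Rl J s J0 x.2.2 w) :
    ∀ w ∈ Metric.ball y.1 y.2.1, Rl J s J0 y.2.2 w := by
  induction h with
  | refl => exact hx
  | @tail y z _ hyz ih =>
    obtain ⟨h1, h2, -, -, h5, h6⟩ := hyz
    refine rl_disc h2 (Metric.isOpen_ball.inter Metric.isOpen_ball) h5 Set.inter_subset_right ?_
    intro w hw
    have h7 := ih w hw.1
    unfold Rl at h7 ⊢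
    rw [← h6 w hw]
    exact h7

theorem cnt_mulg {q : ℤ[X]} {B : Matrix d d ℤ[X]} {U : Set ℂ}
    {x y : ℂ × ℝ × (ℂ → Matrix d d ℂ)} (h : Cnt q B U x y) (g : Matrix d d ℂ)
    (hg : IsUnit g.det) :
    Cnt q B U (x.1, x.2.1, fun w => x.2.2 w * g) (y.1, y.2.1, fun w => y.2.2 w * g) := by
  induction h with
  | refl => exact Relation.ReflTransGen.refl
  | tail _ hyz ih =>
    obtain ⟨h1, h2, h3, h4, h5, h6⟩ := hyz
    refine ih.tail ⟨H63.solOn_mul h1 g hg, H63.solOn_mul h2 g hg, h3, h4, h5, fun w hw => ?_⟩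
    show _ * g = _ * g
    rw [h6 w hw]

/-- MON, generic form -/
theorem mon_gen {H K : Matrix d d (PowerSeries ℚ)} {N : Matrix d d ℤ} {q : ℤ[X]}
    {B : Matrix d d ℤ[X]} {J : Matrix d d ℚ[X]} {s : ℚ[X]} {J0 : Matrix d d ℚ}
    (hS : GSys H K N q B) (hs : s ≠ 0) (hu : IsUnit J0.det)
    (hpair : Hᵀ * J.map (fun p => (p : PowerSeries ℚ)) * H =
      (s : PowerSeries ℚ) • J0.map (fun x => PowerSeries.C x))
    (hflat : (N.map (fun x => (x : ℚ)))ᵀ * J0 + J0 * N.map (fun x => (x : ℚ)) = 0) :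
    mon H N q B Set.univ ⊆ Aut J0 ∧
    (1 : Matrix d d ℂ) ∈ mon H N q B Set.univ ∧
    (∀ a ∈ mon H N q B Set.univ, ∀ b ∈ mon H N q B Set.univ, a * b ∈ mon H N q B Set.univ) ∧
    ∀ a ∈ mon H N q B Set.univ, a⁻¹ ∈ mon H N q B Set.univ := by
  have hsub : mon H N q B Set.univ ⊆ Aut J0 := by
    intro g hg
    obtain ⟨R, hR⟩ := rl_base hS hpair hflat
    have hg' : ∀ᶠ c : ℝ in Filter.atTop, Cnt q B Set.univ ((c : ℂ), 1, YH H N)
      ((c : ℂ), 1, fun w => YH H N w * g) := hg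
    obtain ⟨c, hc1, hc2⟩ := (hg'.and (Filter.eventually_gt_atTop (R + 1))).exists
    have hball : ∀ w ∈ Metric.ball (c : ℂ) 1, R < w.re := fun w hw =>
      H19.ball_half hc2 hw
    have hbase : ∀ w ∈ Metric.ball (c : ℂ) 1, Rl J s J0 (YH H N) w := fun w hw =>
      hR w (hball w hw)
    have hend := rl_cnt (J := J) (s := s) (J0 := J0) hc1 hbase
    -- a point with `s (1 / w) ≠ 0`
    obtain ⟨w, hw, hsw⟩ : ∃ w ∈ Metric.ball (c : ℂ) 1, qC s w⁻¹ ≠ 0 := by
      have hp0 : s.map (algebraMap ℚ ℂ) ≠ 0 :=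
        (Polynomial.map_ne_zero_iff (algebraMap ℚ ℂ).injective).mpr hs
      have hfin : Set.Finite {x : ℂ | (s.map (algebraMap ℚ ℂ)).IsRoot x} :=
        Polynomial.finite_setOfPred_isRoot hp0
      have hfin2 : Set.Finite {w : ℂ | (s.map (algebraMap ℚ ℂ)).IsRoot w⁻¹} :=
        hfin.preimage inv_injective.injOn
      have hinf : (Metric.ball (c : ℂ) 1).Infinite :=
        infinite_of_mem_nhds (c : ℂ) (Metric.ball_mem_nhds _ one_pos)
      obtain ⟨w, hw, hw'⟩ := (hinf.sdiff hfin2).nonempty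
      exact ⟨w, hw, hw'⟩
    have e1 : (YH H N w)ᵀ * J.map (fun p => qC p w⁻¹) * YH H N w =
        qC s w⁻¹ • J0.map (algebraMap ℚ ℂ) := hbase w hw
    have e2 : (YH H N w * g)ᵀ * J.map (fun p => qC p w⁻¹) * (YH H N w * g) =
        qC s w⁻¹ • J0.map (algebraMap ℚ ℂ) := hend w hw
    have e3 : (YH H N w * g)ᵀ * J.map (fun p => qC p w⁻¹) * (YH H N w * g) =
        qC s w⁻¹ • (gᵀ * J0.map (algebraMap ℚ ℂ) * g) := by
      calc _ = gᵀ * ((YH H N w)ᵀ * J.map (fun p => qC p w⁻¹) * YH H N w) * g := by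
            rw [Matrix.transpose_mul]
            simp only [Matrix.mul_assoc]
        _ = _ := by rw [e1, Matrix.mul_smul, Matrix.smul_mul]
    rw [e3] at e2
    exact smul_right_injective _ hsw e2
  have hdet : ∀ g ∈ mon H N q B Set.univ, IsUnit g.det := fun g hg =>
    H63.aut_det J0 hu g (hsub hg)
  refine ⟨hsub, ?_, ?_, ?_⟩
  · refine Filter.Eventually.of_forall fun c => ?_
    have h1 : (((c : ℂ), (1 : ℝ), YH H N) : ℂ × ℝ × (ℂ → Matrix d d ℂ)) =
        ((c : ℂ), (1 : ℝ), fun w => YH H N w * (1 : Matrix d d ℂ)) := by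
      simp
    show Cnt q B Set.univ (((c : ℂ), (1 : ℝ), YH H N) : ℂ × ℝ × (ℂ → Matrix d d ℂ))
      ((c : ℂ), (1 : ℝ), fun w => YH H N w * (1 : Matrix d d ℂ))
    rw [← h1]
    exact Relation.ReflTransGen.refl
  · intro a ha b hb
    have ha' : ∀ᶠ c : ℝ in Filter.atTop, Cnt q B Set.univ ((c : ℂ), 1, YH H N)
      ((c : ℂ), 1, fun w => YH H N w * a) := ha
    have hb' : ∀ᶠ c : ℝ in Filter.atTop, Cnt q B Set.univ ((c : ℂ), 1, YH H N)
      ((c : ℂ), 1, fun w => YH H N w * b) := hb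
    show ∀ᶠ c : ℝ in Filter.atTop, Cnt q B Set.univ ((c : ℂ), 1, YH H N)
      ((c : ℂ), 1, fun w => YH H N w * (a * b))
    filter_upwards [ha', hb'] with c hc hc'
    have h3 := cnt_mulg hc b (hdet b hb)
    have h4 := hc'.trans h3
    simp only [Matrix.mul_assoc] at h4
    exact h4
  · intro a ha
    have ha' : ∀ᶠ c : ℝ in Filter.atTop, Cnt q B Set.univ ((c : ℂ), 1, YH H N)
      ((c : ℂ), 1, fun w => YH H N w * a) := ha
    show ∀ᶠ c : ℝ in Filter.atTop, Cnt q B Set.univ ((c : ℂ), 1, YH H N)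
      ((c : ℂ), 1, fun w => YH H N w * a⁻¹)
    filter_upwards [ha'] with c hc
    have hinv : IsUnit (a⁻¹).det := by
      rw [Matrix.det_nonsing_inv]
      exact (hdet a ha).ringInverse
    have h3 := cnt_mulg (cnt_symm hc) a⁻¹ hinv
    have h5 : ∀ w, YH H N w * a * a⁻¹ = YH H N w := fun w => by
      rw [Matrix.mul_assoc, Matrix.mul_nonsing_inv a (hdet a ha), Matrix.mul_one]
    simp only [h5] at h3
    exact h3

/-- MON for alternating pairings -/
theorem mon_g : Pool.Agent.MT100G.MonStmt := by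
  intro d _ _ F
  exact mon_gen F.sys F.s_ne F.unit F.pair F.flat

/-- MON for symmetric pairings -/
theorem mon_go : Pool.Agent.MT100GO.MonStmt := by
  intro d _ _ F
  exact mon_gen F.sys F.s_ne F.unit F.pair F.flat

end Pool.Agent.MT100G.H11
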